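import Mathlib
import Pool.Agent.Y774.FS.Pick

set_option autoImplicit false

namespace Pool.Agent.Results.MP_03314f_an.FeketeSzego

open Metric Set

/-- The class `S*(M)`: holomorphic injective functions `f` on the open unit disc with `f 0 = 0`,
`f' 0 = 1`, whose image is star-shaped with respect to `0`, and with `|f z| ≤ M` on the disc. -/
def StarClass (M : ℝ) : Set (ℂ → ℂ) :=
  {f | DifferentiableOn ℂ f (ball 0 1) ∧ InjOn f (ball 0 1) ∧ f 0 = 0 ∧ deriv f 0 = 1 ∧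
    StarConvex ℝ (0 : ℂ) (f '' ball 0 1) ∧ ∀ z ∈ ball (0 : ℂ) 1, ‖f z‖ ≤ M}

/-- The second Taylor coefficient at the origin. -/
noncomputable def coeff2 (f : ℂ → ℂ) : ℂ := iteratedDeriv 2 f 0 / 2

/-- The third Taylor coefficient at the origin. -/
noncomputable def coeff3 (f : ℂ → ℂ) : ℂ := iteratedDeriv 3 f 0 / 6

/-- The functional `a₃ - l a₂²`. -/
noncomputable def fs (l : ℝ) (f : ℂ → ℂ) : ℂ := coeff3 f - (l : ℂ) * coeff2 f ^ 2

/-- The values `|a₃ - l a₂²|` over the class `S*(M)`. -/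
noncomputable def Vals (M l : ℝ) : Set ℝ := (fun f => ‖fs l f‖) '' StarClass M

/-- The points of the interval `[b, a]`. -/
noncomputable def U (a b ψ : ℝ) : ℝ := (a + b) / 2 + (a - b) / 2 * Real.cos ψ

/-- The complete elliptic integral `∫_b^a F(u) du / √((1 - u²) (a - u) (u - b))`, written with the
substitution `u = U a b ψ`. -/
noncomputable def ellInt (F : ℝ → ℝ) (a b : ℝ) : ℝ :=
  ∫ ψ in (0 : ℝ)..Real.pi, F (U a b ψ) / Real.sqrt (1 - U a b ψ ^ 2)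

/-- The number `T(a, b)`. -/
noncomputable def T (a b : ℝ) : ℝ := ellInt (fun u => u) a b / ellInt (fun _ => 1) a b

/-- The number `c(a, b)`. -/
noncomputable def c (a b : ℝ) : ℝ :=
  ellInt (fun u => u * ((a - u) * (u - b))) a b / ellInt (fun u => (a - u) * (u - b)) a b

/-- The logarithm of the maximum modulus of the two slit map with `z f'/f =
(1 - 2 T z + z²) / √((1 - 2 a z + z²) (1 - 2 b z + z²))`, `T = T(a, b)`. -/
noncomputable def logMax (a b : ℝ) : ℝ :=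
  ∫ t in (0 : ℝ)..1, ((1 - 2 * T a b * t + t ^ 2) /
    (Real.sqrt (1 - 2 * a * t + t ^ 2) * Real.sqrt (1 - 2 * b * t + t ^ 2)) - 1) / t

/-- The parameters of the two slit maps of maximum modulus `M` (a curve, for each `M`). -/
def IsSlit (M a b : ℝ) : Prop := -1 < b ∧ b < a ∧ a < 1 ∧ logMax a b = Real.log M

/-- Half of the second coefficient of the two slit map. -/
noncomputable def X (a b : ℝ) : ℝ := (a + b) / 2 - T a b

/-- The number `a₃ - a₂² / 2` of the two slit map. -/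
noncomputable def Y (a b : ℝ) : ℝ := 3 / 4 * (a + b) ^ 2 - (a + b) * T a b - a * b

/-- The value of `a₃ - l a₂²` at the Pick function of maximum modulus `M` (one slit). -/
noncomputable def pick (M l : ℝ) : ℝ := (1 - 1 / M) * (3 - 5 / M) - 4 * l * (1 - 1 / M) ^ 2

/-- An elementary function of `M` (it tends to `0` as `M → ∞`). -/
noncomputable def D (M : ℝ) : ℝ :=
  max (4 * (3 / M - 1)) (2 / M * (Real.sqrt (1 - 1 / M) + (2 - 3 / M) * Real.log (Real.sqrt M + Real.sqrt (M - 1))) /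
    (Real.sqrt (1 - 1 / M) - 1 / M * Real.log (Real.sqrt M + Real.sqrt (M - 1))))

/-- The equation of the first threshold. -/
def EqMb (M : ℝ) : Prop :=
  (∫ ψ in (0 : ℝ)..Real.pi, Real.sqrt (1 - (1 - 1 / M ^ 2) * Real.cos ψ ^ 2)) =
    (1 / M) * (Real.sqrt (1 - 1 / M ^ 2) + 1 / M) *
      ∫ ψ in (0 : ℝ)..Real.pi, 1 / Real.sqrt (1 - (1 - 1 / M ^ 2) * Real.cos ψ ^ 2)

/-- The equation of the second threshold. -/
def EqM1 (M : ℝ) : Prop :=
  (2 * M - 3) * Real.sqrt (1 - 1 / M) = (4 - 5 / M) * Real.log (Real.sqrt M + Real.sqrt (M - 1))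

/-- The values `Re (a₃ - a₂² / 2)` over the functions of `S*(M)` with `Re a₂ = 2 x`. -/
def Slice (M x : ℝ) : Set ℝ :=
  (fun f => (fs (1 / 2) f).re) '' {f | f ∈ StarClass M ∧ (coeff2 f).re = 2 * x}

/-- The sharp inequality between `a₂` and `a₃` in `S*(M)` and the maximum of `|a₃ - l a₂²|` for all
real `l ≤ 1/2` and all `M > 1`; `l = 0` is the third coefficient. -/
theorem result :
    (∀ M : ℝ, 1 < M →
      (∀ f ∈ StarClass M, ‖coeff2 f‖ ≤ 2 * (1 - 1 / M)) ∧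
      (∀ x : ℝ, 0 ≤ x → x < 1 - 1 / M → ∃ a b : ℝ, IsSlit M a b ∧ X a b = x) ∧
      (∀ a b : ℝ, IsSlit M a b → IsGreatest (Slice M (X a b)) (Y a b)) ∧
      IsGreatest (Slice M (1 - 1 / M)) ((1 - 1 / M) * (1 - 3 / M))) ∧
    (∀ M l : ℝ, 1 < M → l ≤ 1 / 2 → ∃ V : ℝ, IsGreatest (Vals M l) V ∧
      IsGreatest ({v | ∃ a b : ℝ, IsSlit M a b ∧ v = Y a b + 2 * (1 - 2 * l) * X a b ^ 2} ∪
        {pick M l}) V) ∧
    (∀ M l : ℝ, 1 < M → l ≤ 1 / 2 → D M ≤ 2 * (1 - 2 * l) * (1 - 1 / M) →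
      IsGreatest (Vals M l) (pick M l)) ∧
    (∀ M : ℝ, 1 < M → IsGreatest (Vals M (1 / 2)) (1 - 1 / M ^ 2)) ∧
    ∃ Mb M1 : ℝ, Real.exp 1 < Mb ∧ Mb < M1 ∧ M1 < 33 / 10 ∧
      (∀ M : ℝ, 1 < M → (M = Mb ↔ EqMb M)) ∧ (∀ M : ℝ, 1 < M → (M = M1 ↔ EqM1 M)) ∧
      (∀ M l : ℝ, 1 < M → M ≤ Mb → 0 ≤ l → l ≤ 1 / 2 → IsGreatest (Vals M l) (1 - 1 / M ^ 2)) ∧
      (∀ M : ℝ, Mb < M → M < M1 → ∃ a b : ℝ, (IsSlit M a b ∧ a + b < 0 ∧ T a b = a + b + c a b) ∧
        (∀ a' b' : ℝ, IsSlit M a' b' → a' + b' < 0 → T a' b' = a' + b' + c a' b' → a' = a ∧ b' = b) ∧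
        IsGreatest ((fun f => ‖coeff3 f‖) '' StarClass M) (Y a b + 2 * X a b ^ 2)) ∧
      (∀ M l : ℝ, M1 ≤ M → l ≤ 0 → IsGreatest (Vals M l) (pick M l)) :=
  Pool.Agent.Y774.FS.main

end Pool.Agent.Results.MP_03314f_an.FeketeSzego
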